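import Pool.Agent.W188.Mom.B3
import Pool.Agent.W181.Mom.App4

set_option autoImplicit false

open Complex Filter Topology Set Metric MeasureTheory

namespace Pool.Agent.W188.Mom

open Pool.Agent.W188.Ray

lemma RP_norm {u : ℂ} (hu : u ≠ 0) (T : ℝ) : RP u T = RP (u / (‖u‖ : ℂ)) T := by
  have hu0 : 0 < ‖u‖ := norm_pos_iff.2 hu
  have hu0' : (‖u‖ : ℂ) ≠ 0 := by exact_mod_cast hu0.ne'
  ext v
  constructor
  · rintro ⟨h1, h2, r, hr, h3⟩
    refine ⟨h1, h2, r * ‖u‖, by positivity, ?_⟩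
    rw [h3]; push_cast; field_simp
  · rintro ⟨h1, h2, r, hr, h3⟩
    refine ⟨h1, h2, r / ‖u‖, by positivity, ?_⟩
    rw [h3]; push_cast; field_simp

lemma norm_dir {u : ℂ} (hu : u ≠ 0) : ‖u / (‖u‖ : ℂ)‖ = 1 := by
  have hu0 : 0 < ‖u‖ := norm_pos_iff.2 hu
  rw [norm_div, norm_real, Real.norm_of_nonneg hu0.le, div_self hu0.ne']

lemma RS_norm {u : ℂ} (hu : u ≠ 0) (p T : ℝ) : RS u p T = RS (u / (‖u‖ : ℂ)) p T := by
  unfold RS
  rw [RP_norm hu]

lemma RS_nonneg (u : ℂ) (p T : ℝ) : 0 ≤ RS u p T :=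
  finsum_nonneg fun v => finsum_nonneg fun _ => Real.rpow_nonneg (Z_nonneg v) p

/-- the moments -/
def MomentBound (p : ℝ) : Prop := ∀ ε : ℝ, 0 < ε → ∃ B : ℝ, ∀ T : ℝ, 1 ≤ T →
  1 / T * ∫ t in (0 : ℝ)..T, Z t ^ p ≤ B * T ^ ε

/-- the moments over the points of a ray -/
def RayMomentBound (u : ℂ) (p : ℝ) : Prop := ∀ ε : ℝ, 0 < ε → ∃ B : ℝ, ∀ T : ℝ, 1 ≤ T →
  1 / T * RS u p T ≤ B * T ^ ε

theorem ray_of_moment {p : ℝ} (hp : 0 < p) (h : MomentBound p) {u : ℂ} (hu : ‖u‖ = 1) :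
    RayMomentBound u p := by
  intro ε hε
  obtain ⟨B1, hB1⟩ := h (ε / 2) (half_pos hε)
  obtain ⟨B2, hB2, hRS⟩ := RS_le hp (half_pos hε)
  refine ⟨B2 * (1 + 3 * |B1| * 3 ^ (ε / 2)), fun T hT => ?_⟩
  have hT0 : 0 < T := by linarith
  have h1 := hB1 (T + 2) (by linarith)
  rw [one_div, inv_mul_le_iff₀ (by linarith)] at h1
  have h2 := hRS T hT u hu
  have hTε : 1 ≤ T ^ (ε / 2) := Real.one_le_rpow hT (half_pos hε).le
  have h3 : (T + 2) ^ (ε / 2) ≤ 3 ^ (ε / 2) * T ^ (ε / 2) := by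
    rw [← Real.mul_rpow (by norm_num) hT0.le]
    exact Real.rpow_le_rpow (by linarith) (by linarith) (by positivity)
  have h4 : ∫ t in (0 : ℝ)..(T + 2), Z t ^ p ≤ 3 * |B1| * 3 ^ (ε / 2) * T ^ (ε / 2) * T := by
    refine h1.trans ?_
    calc (T + 2) * (B1 * (T + 2) ^ (ε / 2)) ≤ (3 * T) * (|B1| * (3 ^ (ε / 2) * T ^ (ε / 2))) := by
          apply mul_le_mul (by linarith) _ _ (by positivity)
          · exact mul_le_mul (le_abs_self _) h3 (by positivity) (abs_nonneg _)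
          · by_contra hcon
            push Not at hcon
            have h5 : (T + 2) * (B1 * (T + 2) ^ (ε / 2)) < 0 :=
              mul_neg_of_pos_of_neg (by linarith) hcon
            have h6 : 0 ≤ ∫ t in (0 : ℝ)..(T + 2), Z t ^ p :=
              intervalIntegral.integral_nonneg (by linarith)
                fun t _ => Real.rpow_nonneg (Z_nonneg t) p
            linarith
      _ = _ := by ring
  have h5 : T ^ (ε / 2) * T ^ (ε / 2) = T ^ ε := by
    rw [← Real.rpow_add hT0, add_halves]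
  rw [one_div, inv_mul_le_iff₀ hT0]
  calc RS u p T ≤ B2 * T ^ (ε / 2) * (T + ∫ t in (0 : ℝ)..(T + 2), Z t ^ p) := h2
    _ ≤ B2 * T ^ (ε / 2) * (T * T ^ (ε / 2) + 3 * |B1| * 3 ^ (ε / 2) * T ^ (ε / 2) * T) := by
        apply mul_le_mul_of_nonneg_left _ (by positivity)
        apply add_le_add _ h4
        nlinarith
    _ = T * (B2 * (1 + 3 * |B1| * 3 ^ (ε / 2)) * (T ^ (ε / 2) * T ^ (ε / 2))) := by ring
    _ = T * (B2 * (1 + 3 * |B1| * 3 ^ (ε / 2)) * T ^ ε) := by rw [h5]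

theorem moment_of_ray {p : ℝ} (hp : 0 < p) {u : ℂ} (hu : ‖u‖ = 1) (h : RayMomentBound u p) :
    MomentBound p := by
  intro ε hε
  obtain ⟨C, N, hC, hN, hmaj⟩ := major
  obtain ⟨B1, hB1⟩ := h (ε / 2) (half_pos hε)
  -- the power of the logarithm
  have hlog : ∃ D : ℝ, 0 < D ∧ ∀ T : ℝ, 1 ≤ T → (C * Real.log T) ^ (p + 1) ≤ D * T ^ (ε / 2) := by
    set e : ℝ := ε / 2 / (p + 1) with he
    have he0 : 0 < e := by positivity
    refine ⟨(C / e) ^ (p + 1), by positivity, fun T hT => ?_⟩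
    have h1 := Real.log_le_rpow_div (by linarith : 0 ≤ T) he0
    have h2 : C * Real.log T ≤ C / e * T ^ e := by
      calc C * Real.log T ≤ C * (T ^ e / e) := mul_le_mul_of_nonneg_left h1 (by linarith)
        _ = C / e * T ^ e := by ring
    calc (C * Real.log T) ^ (p + 1) ≤ (C / e * T ^ e) ^ (p + 1) :=
          Real.rpow_le_rpow (mul_nonneg (by linarith) (Real.log_nonneg hT)) h2 (by linarith)
      _ = (C / e) ^ (p + 1) * T ^ (ε / 2) := by
          rw [Real.mul_rpow (by positivity) (by positivity), ← Real.rpow_mul (by linarith), he,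
            div_mul_cancel₀ _ (by linarith)]
  obtain ⟨D, hD, hDl⟩ := hlog
  set I0 : ℝ := ∫ t in (0 : ℝ)..N, Z t ^ p with hI0
  have hI00 : 0 ≤ I0 := intervalIntegral.integral_nonneg (by linarith)
    fun t _ => Real.rpow_nonneg (Z_nonneg t) p
  refine ⟨D * (1 + 2 * |B1| * 2 ^ (ε / 2)) + I0, fun T hT => ?_⟩
  have hT0 : 0 < T := by linarith
  have hTε : 1 ≤ T ^ ε := Real.one_le_rpow hT hε.le
  have hTε2 : 1 ≤ T ^ (ε / 2) := Real.one_le_rpow hT (half_pos hε).le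
  have hpos : 0 ≤ D * (1 + 2 * |B1| * 2 ^ (ε / 2)) := by positivity
  rw [one_div, inv_mul_le_iff₀ hT0]
  rcases lt_or_ge T N with h1 | h1
  · have h2 : ∫ t in (0 : ℝ)..T, Z t ^ p ≤ I0 := mono_int hp le_rfl hT0.le h1.le
    calc ∫ t in (0 : ℝ)..T, Z t ^ p ≤ I0 := h2
      _ = 1 * (I0 * 1) := by ring
      _ ≤ T * ((D * (1 + 2 * |B1| * 2 ^ (ε / 2)) + I0) * T ^ ε) := by
          apply mul_le_mul hT _ (by positivity) (by linarith)
          exact mul_le_mul (by linarith) hTε (by norm_num) (by positivity)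
  · have h2 := hmaj T h1 u hu p hp
    have h3 := hB1 (2 * T) (by linarith)
    rw [one_div, inv_mul_le_iff₀ (by linarith)] at h3
    have h4 : RS u p (2 * T) ≤ 2 * |B1| * 2 ^ (ε / 2) * T ^ (ε / 2) * T := by
      refine h3.trans ?_
      rw [Real.mul_rpow (by norm_num) hT0.le]
      calc 2 * T * (B1 * (2 ^ (ε / 2) * T ^ (ε / 2))) ≤ 2 * T * (|B1| * (2 ^ (ε / 2) * T ^ (ε / 2))) := by
            apply mul_le_mul_of_nonneg_left _ (by positivity)
            exact mul_le_mul_of_nonneg_right (le_abs_self _) (by positivity)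
        _ = _ := by ring
    have h5 : T ^ (ε / 2) * T ^ (ε / 2) = T ^ ε := by
      rw [← Real.rpow_add hT0, add_halves]
    calc ∫ t in (0 : ℝ)..T, Z t ^ p ≤ (C * Real.log T) ^ (p + 1) * (T + RS u p (2 * T)) := h2
      _ ≤ (D * T ^ (ε / 2)) * (T * T ^ (ε / 2) + 2 * |B1| * 2 ^ (ε / 2) * T ^ (ε / 2) * T) := by
          apply mul_le_mul (hDl T hT) _ _ (by positivity)
          · apply add_le_add _ h4
            nlinarith
          · have := RS_nonneg u p (2 * T)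
            linarith
      _ = T * (D * (1 + 2 * |B1| * 2 ^ (ε / 2)) * (T ^ (ε / 2) * T ^ (ε / 2))) := by ring
      _ = T * (D * (1 + 2 * |B1| * 2 ^ (ε / 2)) * T ^ ε) := by rw [h5]
      _ ≤ T * ((D * (1 + 2 * |B1| * 2 ^ (ε / 2)) + I0) * T ^ ε) := by
          apply mul_le_mul_of_nonneg_left _ hT0.le
          exact mul_le_mul_of_nonneg_right (by linarith) (by positivity)

lemma lower {p : ℝ} (hp : 2 ≤ p) : ∃ c : ℝ, 0 < c ∧ ∀ᶠ T : ℝ in atTop,
    c * (T * Real.log T ^ (p ^ 2 / 4)) ≤ ∫ t in T..(T + T), Z t ^ p := by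
  obtain ⟨c0, K, hc0, _, h⟩ := Pool.Agent.W181.Mom.uniform_real 1 one_pos (by
    rw [lt_div_iff₀ (Real.exp_pos 1)]
    have := Real.exp_one_lt_d9
    linarith)
  obtain ⟨B, hB, h2⟩ := h (p / 2) (by linarith) c0 (Or.inl le_rfl)
  have haF := Pool.Agent.H306R2.aF_pos (by linarith : 0 < p / 2)
  have hG : 0 < Real.Gamma ((p / 2) ^ 2 + 1) := Real.Gamma_pos_of_pos (by positivity)
  refine ⟨Pool.Agent.H306R2.aF (p / 2) * (c0 * (1 ^ ((p / 2) ^ 2) / Real.Gamma ((p / 2) ^ 2 + 1))),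
    by positivity, ?_⟩
  have hsmall : ∀ᶠ T : ℝ in atTop, Real.log T ^ B ≤ T := by
    have h1 := (isLittleO_log_rpow_rpow_atTop B (by norm_num : (0 : ℝ) < 1)).bound
      (by norm_num : (0 : ℝ) < 1)
    filter_upwards [h1, eventually_ge_atTop 1] with T hT hT1
    rw [one_mul, Real.rpow_one, Real.norm_of_nonneg (Real.rpow_nonneg (Real.log_nonneg hT1) B),
      Real.norm_of_nonneg (by linarith)] at hT
    exact hT
  filter_upwards [h2, hsmall] with T h3 h4
  have h5 := h3 T h4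
  have e1 : (p / 2) ^ 2 = p ^ 2 / 4 := by ring
  have e2 : 2 * (p / 2) = p := by ring
  rw [e2] at h5
  rw [e1] at h5 ⊢
  exact h5

theorem ray_lower {p : ℝ} (hp : 2 ≤ p) (hp2 : p + 1 < p ^ 2 / 4) : ∃ c T₀ : ℝ, 0 < c ∧
    ∀ T : ℝ, T₀ ≤ T → ∀ u : ℂ, ‖u‖ = 1 →
      c * T * Real.log T ^ (p ^ 2 / 4 - p - 1) ≤ RS u p T := by
  obtain ⟨C, N, hC, hN, hmaj⟩ := major
  obtain ⟨c, hc, hlow⟩ := lower hp
  set q : ℝ := p ^ 2 / 4 with hq
  have hq0 : 0 < q := by linarith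
  have hqp : 0 < q - p - 1 := by linarith
  -- the constant
  set c1 : ℝ := c / 4 * (1 / 2) ^ q / C ^ (p + 1) with hc1
  have hc10 : 0 < c1 := by positivity
  have hbig : ∀ᶠ T : ℝ in atTop, 1 / c1 ≤ Real.log T ^ (q - p - 1) := by
    have h1 : Tendsto (fun T : ℝ => Real.log T ^ (q - p - 1)) atTop atTop :=
      (tendsto_rpow_atTop hqp).comp Real.tendsto_log_atTop
    exact h1.eventually_ge_atTop _
  have h4 : Tendsto (fun T : ℝ => T / 4) atTop atTop := tendsto_id.atTop_div_const (by norm_num)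
  obtain ⟨T₁, hT₁⟩ := eventually_atTop.1 ((h4.eventually hlow).and (hbig.and
    (eventually_ge_atTop (max (2 * N) 16))))
  refine ⟨c1 / 2, T₁, by positivity, fun T hT u hu => ?_⟩
  obtain ⟨a1, a2, a3⟩ := hT₁ T hT
  have hTN : 2 * N ≤ T := le_trans (le_max_left _ _) a3
  have hT16 : 16 ≤ T := le_trans (le_max_right _ _) a3
  have hT0 : 0 < T := by linarith
  have hm := hmaj (T / 2) (by linarith) u hu p (by linarith)
  have e1 : 2 * (T / 2) = T := by ring
  rw [e1] at hm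
  have e2 : T / 4 + T / 4 = T / 2 := by ring
  rw [e2] at a1
  have h5 : ∫ t in (T / 4)..(T / 2), Z t ^ p ≤ ∫ t in (0 : ℝ)..(T / 2), Z t ^ p :=
    mono_int (by linarith) (by linarith) (by linarith) le_rfl
  have hlogT : 0 < Real.log T := Real.log_pos (by linarith)
  have hlog4 : 1 / 2 * Real.log T ≤ Real.log (T / 4) := by
    have h6 : Real.log T ≤ 2 * Real.log (T / 4) := by
      have h7 : T ≤ (T / 4) ^ 2 := by nlinarith
      have h8 := Real.log_le_log hT0 h7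
      rw [Real.log_pow] at h8
      exact_mod_cast h8
    linarith
  have hlog2 : Real.log (T / 2) ≤ Real.log T := Real.log_le_log (by linarith) (by linarith)
  have hlog20 : 0 ≤ Real.log (T / 2) := Real.log_nonneg (by linarith)
  have h6 : (1 / 2) ^ q * Real.log T ^ q ≤ Real.log (T / 4) ^ q := by
    rw [← Real.mul_rpow (by norm_num) hlogT.le]
    exact Real.rpow_le_rpow (by positivity) hlog4 hq0.le
  have h7 : (C * Real.log (T / 2)) ^ (p + 1) ≤ C ^ (p + 1) * Real.log T ^ (p + 1) := by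
    rw [← Real.mul_rpow (by linarith) hlogT.le]
    exact Real.rpow_le_rpow (by positivity) (mul_le_mul_of_nonneg_left hlog2 (by linarith))
      (by linarith)
  have hRS := RS_nonneg u p T
  have h8 : c * (T / 4 * ((1 / 2) ^ q * Real.log T ^ q)) ≤
      C ^ (p + 1) * Real.log T ^ (p + 1) * (T / 2 + RS u p T) := by
    calc c * (T / 4 * ((1 / 2) ^ q * Real.log T ^ q)) ≤ c * (T / 4 * Real.log (T / 4) ^ q) := by
          apply mul_le_mul_of_nonneg_left _ hc.le
          exact mul_le_mul_of_nonneg_left h6 (by linarith)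
      _ ≤ ∫ t in (T / 4)..(T / 2), Z t ^ p := a1
      _ ≤ ∫ t in (0 : ℝ)..(T / 2), Z t ^ p := h5
      _ ≤ (C * Real.log (T / 2)) ^ (p + 1) * (T / 2 + RS u p T) := hm
      _ ≤ _ := mul_le_mul_of_nonneg_right h7 (by linarith)
  have h9 : Real.log T ^ q = Real.log T ^ (q - p - 1) * Real.log T ^ (p + 1) := by
    rw [← Real.rpow_add hlogT]; congr 1; ring
  have hCp : 0 < C ^ (p + 1) := Real.rpow_pos_of_pos (by linarith) _
  have hLp : 0 < Real.log T ^ (p + 1) := Real.rpow_pos_of_pos hlogT _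
  have h10 : c1 * T * Real.log T ^ (q - p - 1) ≤ T / 2 + RS u p T := by
    have h11 : c * (T / 4 * ((1 / 2) ^ q * Real.log T ^ q)) =
        (C ^ (p + 1) * Real.log T ^ (p + 1)) * (c1 * T * Real.log T ^ (q - p - 1)) := by
      rw [h9, hc1]; field_simp
    rw [h11] at h8
    exact le_of_mul_le_mul_left h8 (by positivity)
  have h12 : T ≤ c1 * T * Real.log T ^ (q - p - 1) := by
    rw [div_le_iff₀ hc10] at a2
    nlinarith
  have h13 : c1 / 2 * T * Real.log T ^ (q - p - 1) = (c1 * T * Real.log T ^ (q - p - 1)) / 2 := by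
    ring
  rw [h13]
  linarith

end Pool.Agent.W188.Mom
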