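import Pool.Agent.W188.Ray.A5

set_option autoImplicit false

open Complex Filter Topology Set Metric

namespace Pool.Agent.W188.Mom

open Pool.Agent.W188.Ray H345 H345.Chi

/-- the points of the critical line, of height between `100` and `T`, at which zeta lies on the ray
`{r u : r > 0}` -/
def RP (u : ℂ) (T : ℝ) : Set ℝ :=
  {v | 100 ≤ v ∧ v ≤ T ∧ ∃ r : ℝ, 0 < r ∧ riemannZeta (1 / 2 + v * I) = r * u}

lemma rot_one {u : ℂ} (hu : ‖u‖ = 1) {v r : ℝ} (hv : 1 ≤ v) (hr : 0 < r)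
    (h : riemannZeta (cp v) = r * u) : rot ((starRingEnd ℂ) u ^ 2) (cp v) = 1 := by
  have h1 := fe_rot hu hv
  have h2 : (starRingEnd ℂ) u * riemannZeta (cp v) = r := by
    rw [h]
    have h3 : (starRingEnd ℂ) u * u = 1 := by
      rw [mul_comm, mul_conj, normSq_eq_norm_sq, hu]; simp
    calc (starRingEnd ℂ) u * (r * u) = r * ((starRingEnd ℂ) u * u) := by ring
      _ = r := by rw [h3, mul_one]
  rw [h2, conj_ofReal] at h1
  have h3 : (r : ℂ) ≠ 0 := by exact_mod_cast hr.ne'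
  have h4 : (rot ((starRingEnd ℂ) u ^ 2) (cp v) - 1) * (r : ℂ) = 0 := by
    rw [sub_mul, ← h1]; ring
  rcases mul_eq_zero.1 h4 with h5 | h5
  · exact sub_eq_zero.1 h5
  · exact absurd h5 h3

lemma spacing {c : ℂ} (hc : ‖c‖ = 1) {t t' : ℝ} (ht : 100 ≤ t) (h : rot c (cp t) = 1)
    (h' : rot c (cp t') = 1) (hlt : t < t') : 1 / (8 * Real.log t) < t' - t := by
  by_contra hcon
  push Not at hcon
  have hlog : 1 ≤ Real.log t := by
    rw [Real.le_log_iff_exp_le (by linarith)]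
    have := Real.exp_one_lt_d9
    linarith
  set κ : ℝ := 1 / (32 * Real.log t) with hκd
  have hκ0 : 0 < κ := by positivity
  have hκ1 : κ * Real.log t = 1 / 32 := by rw [hκd]; field_simp
  have hκ4 : 1 / (8 * Real.log t) = 4 * κ := by rw [hκd]; field_simp; norm_num
  have hκ2 : κ ≤ 1 / 32 := by nlinarith
  rw [hκ4] at hcon
  set Y : ℝ → ℂ := fun x => rot c (cp x) with hY
  have hYd : ∀ x ∈ Icc t (t + 4 * κ), HasDerivAt Y (-(Y x * L2 (cp x)) * I) x := by
    intro x hx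
    exact hasDerivAt_rot_line c (by linarith [hx.1])
  have hYn : ∀ x, ‖Y x‖ = 1 := fun x => norm_rot_line hc x
  have hL : ∀ x ∈ Icc t (t + 4 * κ), 1 ≤ (L2 (cp x)).re ∧
      ‖L2 (cp x)‖ ≤ Real.log t ∧ |(L2 (cp x)).im| ≤ 28 / 100 := by
    intro x hx
    obtain ⟨a1, a2, a3⟩ := L2_re_ge (s := cp x) (by simp) (by simp; norm_num)
      (by simp; linarith [hx.1])
    rw [cp_im] at a2 a3
    refine ⟨a1, a2.trans ?_, a3.trans ?_⟩
    · apply Real.log_le_log (by linarith [hx.1])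
      linarith [hx.2]
    · rw [div_le_iff₀ (by linarith [hx.1])]
      linarith [hx.1]
  have ht0 : t ∈ Icc t (t + 4 * κ) := ⟨le_rfl, by linarith⟩
  have hclose : ∀ x ∈ Icc t (t + 4 * κ), ‖Y x - Y t‖ ≤ 1 / 8 := by
    intro x hx
    have h3 := (convex_Icc t (t + 4 * κ)).norm_image_sub_le_of_norm_hasDerivWithin_le
      (f := Y) (f' := fun x => -(Y x * L2 (cp x)) * I) (C := Real.log t)
      (fun y hy => (hYd y hy).hasDerivWithinAt)
      (fun y hy => by
        rw [norm_mul, norm_I, mul_one, norm_neg, norm_mul, hYn, one_mul]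
        exact (hL y hy).2.1) ht0 hx
    refine h3.trans ?_
    have h4 : ‖x - t‖ ≤ 4 * κ := by
      rw [Real.norm_eq_abs]
      exact abs_le.2 ⟨by linarith [hx.1], by linarith [hx.2]⟩
    calc Real.log t * ‖x - t‖ ≤ Real.log t * (4 * κ) :=
          mul_le_mul_of_nonneg_left h4 (by linarith)
      _ ≤ 1 / 8 := by linarith
  have hYt : Y t = 1 := h
  have hre : ∀ x ∈ Icc t (t + 4 * κ), 3 / 4 ≤ (Y x).re := by
    intro x hx
    have h3 := hclose x hx
    rw [hYt] at h3
    have h4 := (abs_re_le_norm (Y x - 1)).trans h3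
    rw [sub_re, one_re] at h4
    linarith [(abs_le.1 h4).1]
  set g : ℝ → ℝ := fun x => (Y x).im with hg
  have hgd : ∀ x ∈ Icc t (t + 4 * κ),
      HasDerivAt g ((-(Y x * L2 (cp x)) * I).im) x := by
    intro x hx
    exact (imCLM.hasFDerivAt.comp_hasDerivAt x (hYd x hx))
  have hg' : ∀ x ∈ Icc t (t + 4 * κ), (-(Y x * L2 (cp x)) * I).im ≤ -(1 / 3) := by
    intro x hx
    obtain ⟨a1, a2, a3⟩ := hL x hx
    have a4 := hre x hx
    have a5 : |(Y x).im| ≤ 1 := (abs_im_le_norm _).trans (hYn x).le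
    have e : (-(Y x * L2 (cp x)) * I).im = -((Y x).re * (L2 (cp x)).re - (Y x).im * (L2 (cp x)).im) := by
      simp [mul_im, mul_re]
    rw [e]
    have a6 : (Y x).im * (L2 (cp x)).im ≤ 1 * (28 / 100) := by
      calc (Y x).im * (L2 (cp x)).im ≤ |(Y x).im * (L2 (cp x)).im| := le_abs_self _
        _ = |(Y x).im| * |(L2 (cp x)).im| := abs_mul _ _
        _ ≤ _ := mul_le_mul a5 a3 (abs_nonneg _) (by norm_num)
    have a7 : 3 / 4 * 1 ≤ (Y x).re * (L2 (cp x)).re :=
      mul_le_mul a4 a1 (by norm_num) (by linarith)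
    linarith
  obtain ⟨x, hx, hx2⟩ := exists_hasDerivAt_eq_slope g (fun x => (-(Y x * L2 (cp x)) * I).im)
      (a := t) (b := t') hlt
      (fun x hx => (hgd x ⟨hx.1, by linarith [hx.2]⟩).continuousAt.continuousWithinAt)
      (fun x hx => hgd x ⟨hx.1.le, by linarith [hx.2]⟩)
  have h3 := hg' x ⟨hx.1.le, by linarith [hx.2]⟩
  have h4 : g t = 0 := by
    show (Y t).im = 0
    rw [hYt]; simp
  have h5 : g t' = 0 := by
    show (rot c (cp t')).im = 0
    rw [h']; simp
  rw [hx2, h4, h5] at h3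
  norm_num at h3

lemma RP_spacing {u : ℂ} (hu : ‖u‖ = 1) {T v v' : ℝ} (hv : v ∈ RP u T) (hv' : v' ∈ RP u T)
    (h : v < v') : 1 / (8 * Real.log T) < v' - v := by
  obtain ⟨h1, h2, r, hr, h3⟩ := hv
  obtain ⟨h1', h2', r', hr', h3'⟩ := hv'
  have hc : ‖(starRingEnd ℂ) u ^ 2‖ = 1 := by rw [norm_pow, Complex.norm_conj, hu]; norm_num
  refine lt_of_le_of_lt ?_ (spacing hc h1 (rot_one hu (by linarith) hr h3)
    (rot_one hu (by linarith) hr' h3') h)
  have hlog : 0 < Real.log v := Real.log_pos (by linarith)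
  apply one_div_le_one_div_of_le (by positivity)
  have := Real.log_le_log (by linarith) h2
  linarith

/-- an injection into the natural numbers -/
lemma RP_inj {u : ℂ} (hu : ‖u‖ = 1) {T a : ℝ} :
    InjOn (fun v : ℝ => ⌊(v - a) * (8 * Real.log T)⌋₊) (RP u T ∩ {v | a ≤ v}) := by
  have key : ∀ v v' : ℝ, v ∈ RP u T → v' ∈ RP u T → a ≤ v → v < v' →
      ⌊(v - a) * (8 * Real.log T)⌋₊ ≠ ⌊(v' - a) * (8 * Real.log T)⌋₊ := by
    intro v v' hv hv' ha h heq
    have h1 := RP_spacing hu hv hv' h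
    have hlog : 0 < Real.log T := Real.log_pos (by linarith [hv.1, hv.2.1])
    rw [div_lt_iff₀ (by positivity)] at h1
    have h0 : 0 ≤ (v - a) * (8 * Real.log T) := mul_nonneg (by linarith) (by positivity)
    have h2 : (v - a) * (8 * Real.log T) + 1 < (v' - a) * (8 * Real.log T) := by linarith
    have h3 := Nat.lt_floor_add_one ((v' - a) * (8 * Real.log T))
    have h4 := Nat.floor_le h0
    rw [heq] at h4
    linarith
  intro v hv v' hv' heq
  by_contra hne
  rcases lt_or_gt_of_ne hne with h | h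
  · exact key v v' hv.1 hv'.1 hv.2 h heq
  · exact key v' v hv'.1 hv.1 hv'.2 h heq.symm

lemma RP_finite {u : ℂ} (hu : ‖u‖ = 1) (T : ℝ) : (RP u T).Finite := by
  rcases lt_or_ge T 100 with h | h
  · have : RP u T = ∅ := by
      ext v
      simp only [mem_empty_iff_false, iff_false]
      intro hv
      linarith [hv.1, hv.2.1]
    rw [this]; exact finite_empty
  have hlog : 0 < Real.log T := Real.log_pos (by linarith)
  have h1 : RP u T ∩ {v | (0 : ℝ) ≤ v} = RP u T := by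
    apply inter_eq_left.2
    intro v hv
    simp only [mem_ofPred_eq]
    linarith [hv.1]
  rw [← h1]
  refine Set.Finite.of_finite_image ((finite_Iic ⌊T * (8 * Real.log T)⌋₊).subset ?_)
    (RP_inj hu (T := T) (a := 0))
  rintro _ ⟨v, hv, rfl⟩
  simp only [sub_zero, mem_Iic]
  apply Nat.floor_le_floor
  exact mul_le_mul_of_nonneg_right hv.1.2.1 (by positivity)

lemma RP_count {u : ℂ} (hu : ‖u‖ = 1) {T a : ℝ} (hT : 100 ≤ T) :
    ((RP u T ∩ Icc a (a + 1)).ncard : ℝ) ≤ 8 * Real.log T + 1 := by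
  have hlog : 0 < Real.log T := Real.log_pos (by linarith)
  have hle : (RP u T ∩ Icc a (a + 1)).ncard ≤ (Iic ⌊8 * Real.log T⌋₊).ncard := by
    apply ncard_le_ncard_of_injOn (fun v : ℝ => ⌊(v - a) * (8 * Real.log T)⌋₊)
    · intro v hv
      simp only [mem_Iic]
      apply Nat.floor_le_floor
      have : (v - a) * (8 * Real.log T) ≤ 1 * (8 * Real.log T) :=
        mul_le_mul_of_nonneg_right (by linarith [hv.2.2]) (by positivity)
      linarith
    · have hsub : RP u T ∩ Icc a (a + 1) ⊆ RP u T ∩ {v | a ≤ v} := fun v hv => ⟨hv.1, hv.2.1⟩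
      exact (RP_inj hu (T := T) (a := a)).mono hsub
  have hc : (Iic ⌊8 * Real.log T⌋₊).ncard = ⌊8 * Real.log T⌋₊ + 1 := by
    rw [← Finset.coe_Iic, ncard_coe_finset, Nat.card_Iic]
  rw [hc] at hle
  have h1 : ((RP u T ∩ Icc a (a + 1)).ncard : ℝ) ≤ (⌊8 * Real.log T⌋₊ : ℝ) + 1 := by
    exact_mod_cast hle
  have h2 := Nat.floor_le (show 0 ≤ 8 * Real.log T by positivity)
  linarith

end Pool.Agent.W188.Mom
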