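import Pool.Agent.W188.Mom.B1
import Pool.Agent.H983R4.LH.P5

set_option autoImplicit false

open Complex Filter Topology Set Metric

namespace Pool.Agent.W188.Mom

open Pool.Agent.W188.Ray H345 H345.Chi

/-- the modulus of zeta on the critical line -/
noncomputable def Z (t : ℝ) : ℝ := ‖riemannZeta (1 / 2 + t * I)‖

lemma Z_nonneg (t : ℝ) : 0 ≤ Z t := norm_nonneg _

lemma Z_cont : Continuous Z := Pool.Agent.H983R4.LH.zeta_line_cont.norm

lemma Zp_cont {p : ℝ} (hp : 0 < p) : Continuous fun t => Z t ^ p :=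
  Z_cont.rpow_const fun _ => Or.inr hp.le

lemma Zp_int {p : ℝ} (hp : 0 < p) (a b : ℝ) :
    IntervalIntegrable (fun t => Z t ^ p) MeasureTheory.volume a b :=
  (Zp_cont hp).intervalIntegrable _ _

lemma integral_le_of {p K a b : ℝ} (hp : 0 < p) (hab : a ≤ b) (hK : ∀ t ∈ Icc a b, Z t ≤ K) :
    ∫ t in a..b, Z t ^ p ≤ (b - a) * K ^ p := by
  have h := intervalIntegral.integral_mono_on (μ := MeasureTheory.volume) hab (Zp_int hp a b)
    (intervalIntegrable_const (c := K ^ p))
    (fun t ht => Real.rpow_le_rpow (Z_nonneg t) (hK t ht) hp.le)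
  simpa using h

lemma loglog_small (C : ℝ) (hC : 0 < C) : ∀ᶠ T : ℝ in atTop, C * Real.log (Real.log T) ≤ T / 4 := by
  have h1 := Real.isLittleO_log_id_atTop.bound (by positivity : (0 : ℝ) < 1 / (4 * C))
  filter_upwards [h1, eventually_ge_atTop 10] with T hT hT1
  have hl : 1 ≤ Real.log T := by
    rw [Real.le_log_iff_exp_le (by linarith)]
    have := Real.exp_one_lt_d9
    linarith
  rw [id, Real.norm_of_nonneg (by linarith), Real.norm_of_nonneg (by linarith),
    div_mul_eq_mul_div, one_mul, le_div_iff₀ (by positivity)] at hT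
  have h2 : Real.log (Real.log T) ≤ Real.log T := by
    have := Real.log_le_sub_one_of_pos (x := Real.log T) (by linarith)
    linarith
  nlinarith

lemma card_near (S : Finset ℕ) (v R : ℝ) (hR : 0 ≤ R) (h : ∀ n ∈ S, |(n : ℝ) - v| ≤ R) :
    (S.card : ℝ) ≤ 2 * R + 1 := by
  rcases S.eq_empty_or_nonempty with h0 | h0
  · rw [h0]; simp; positivity
  set a := S.min' h0 with ha
  set b := S.max' h0 with hb
  have hsub : S ⊆ Finset.Icc a b := fun n hn =>
    Finset.mem_Icc.2 ⟨S.min'_le n hn, S.le_max' n hn⟩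
  have h1 := Finset.card_le_card hsub
  rw [Nat.card_Icc] at h1
  have h2 := abs_le.1 (h a (S.min'_mem h0))
  have h3 := abs_le.1 (h b (S.max'_mem h0))
  have h4 : a ≤ b := S.min'_le_max' h0
  have h5 : (S.card : ℝ) ≤ (b : ℝ) + 1 - a := by
    have : S.card + a ≤ b + 1 := by omega
    have h6 : ((S.card + a : ℕ) : ℝ) ≤ ((b + 1 : ℕ) : ℝ) := by exact_mod_cast this
    push_cast at h6
    linarith
  linarith [h2.1, h3.2]

/-- each unit interval is controlled by one point of the ray -/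
lemma unit_int : ∃ C N : ℝ, 1 ≤ C ∧ 1000 ≤ N ∧ ∀ T : ℝ, N ≤ T → ∀ u : ℂ, ‖u‖ = 1 →
    ∀ n : ℕ, N ≤ n → (n : ℝ) ≤ T →
      (∀ t ∈ Icc (n : ℝ) (n + 1), Z t ≤ C * Real.log T) ∨
      ∃ v ∈ RP u (2 * T), |(n : ℝ) - v| ≤ C * Real.log T ∧
        ∀ t ∈ Icc (n : ℝ) (n + 1), Z t ≤ C * Real.log T * Z v := by
  obtain ⟨C, T0, hC, hT0, hdir⟩ := directions
  obtain ⟨T1, hT1⟩ := eventually_atTop.1 (loglog_small C hC)
  refine ⟨2 * C + 1, max T0 T1, by linarith, le_trans hT0 (le_max_left _ _),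
    fun T hT u hu n hn hnT => ?_⟩
  have hna : T0 ≤ n := le_trans (le_max_left _ _) hn
  have hnb : T1 ≤ n := le_trans (le_max_right _ _) hn
  obtain ⟨t0, ht0, hmax⟩ := isCompact_Icc.exists_isMaxOn
    (nonempty_Icc.2 (by linarith : (n : ℝ) ≤ n + 1)) Z_cont.continuousOn
  have hlogT : 1 ≤ Real.log T := by
    rw [Real.le_log_iff_exp_le (by linarith)]
    have := Real.exp_one_lt_d9
    linarith
  have hlogt : Real.log t0 ≤ 2 * Real.log T := by
    have h1 : t0 ≤ T ^ 2 := by nlinarith [ht0.2]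
    have h2 := Real.log_le_log (by linarith [ht0.1]) h1
    rw [Real.log_pow] at h2
    exact_mod_cast h2
  have hlogt1 : 1 ≤ Real.log t0 := by
    rw [Real.le_log_iff_exp_le (by linarith [ht0.1])]
    have := Real.exp_one_lt_d9
    linarith [ht0.1]
  rcases lt_or_ge (Z t0) (C * Real.log t0) with h | h
  · left
    intro t ht
    refine (hmax ht).trans (h.le.trans ?_)
    nlinarith
  · right
    obtain ⟨v, r, hv, hr, hz⟩ := hdir t0 (by linarith [ht0.1]) u hu h
    have hz' : Z t0 ≤ C * Real.log t0 * r := hz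
    have hr0 : 0 < r := by
      have h1 : 0 < Z t0 := lt_of_lt_of_le (by positivity) h
      by_contra hcon
      push Not at hcon
      have : C * Real.log t0 * r ≤ 0 := mul_nonpos_of_nonneg_of_nonpos (by positivity) hcon
      linarith
    have hsm := hT1 t0 (by linarith [ht0.1])
    have hv' := abs_le.1 (hv.trans hsm)
    have hZv : Z v = r := by
      unfold Z
      have : riemannZeta (1 / 2 + (v : ℂ) * I) = r * u := hr
      rw [this, norm_mul, norm_real, hu, mul_one, Real.norm_of_nonneg hr0.le]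
    have hll : C * Real.log (Real.log t0) ≤ 2 * C * Real.log T := by
      have h2 : Real.log (Real.log t0) ≤ Real.log t0 := by
        have := Real.log_le_sub_one_of_pos (x := Real.log t0) (by linarith)
        linarith
      nlinarith
    refine ⟨v, ⟨by linarith [hv'.1, ht0.1], by linarith [hv'.2, ht0.2], r, hr0, hr⟩, ?_, ?_⟩
    · have h3 := abs_le.1 (hv.trans hll)
      rw [abs_le]
      constructor
      · linarith [h3.2, ht0.1, ht0.2]
      · linarith [h3.1, ht0.1, ht0.2]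
    · intro t ht
      refine (hmax ht).trans (hz'.trans ?_)
      rw [hZv]
      apply mul_le_mul_of_nonneg_right _ hr0.le
      nlinarith

/-- the sum over the points on the ray -/
noncomputable def RS (u : ℂ) (p T : ℝ) : ℝ := ∑ᶠ v ∈ RP u T, Z v ^ p

lemma RS_eq {u : ℂ} (hu : ‖u‖ = 1) (p T : ℝ) :
    RS u p T = ∑ v ∈ (RP_finite hu T).toFinset, Z v ^ p := by
  unfold RS
  exact finsum_mem_eq_finite_toFinset_sum _ (RP_finite hu T)

theorem major : ∃ C N : ℝ, 1 ≤ C ∧ 1000 ≤ N ∧ ∀ T : ℝ, N ≤ T → ∀ u : ℂ, ‖u‖ = 1 →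
    ∀ p : ℝ, 0 < p →
      ∫ t in (0:ℝ)..T, Z t ^ p ≤ (C * Real.log T) ^ (p + 1) * (T + RS u p (2 * T)) := by
  obtain ⟨C, N, hC, hN, hu1⟩ := unit_int
  set m : ℕ := ⌈N⌉₊ with hm
  have hmN : N ≤ m := Nat.le_ceil N
  obtain ⟨A, hA⟩ := (isCompact_Icc (a := (0 : ℝ)) (b := m)).exists_bound_of_continuousOn
    Z_cont.continuousOn
  set A1 : ℝ := max A 1 with hA1
  refine ⟨C + A1 + 2 * C + 3, max N (m + 1), ?_, le_trans hN (le_max_left _ _),
    fun T hT u hu p hp => ?_⟩
  · have : 1 ≤ A1 := le_max_right _ _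
    linarith
  have hA11 : 1 ≤ A1 := le_max_right _ _
  have hTN : N ≤ T := le_trans (le_max_left _ _) hT
  have hTm : (m : ℝ) + 1 ≤ T := le_trans (le_max_right _ _) hT
  have hlogT : 1 ≤ Real.log T := by
    rw [Real.le_log_iff_exp_le (by linarith)]
    have := Real.exp_one_lt_d9
    linarith
  set K : ℝ := C * Real.log T with hK
  have hK1 : 1 ≤ K := by nlinarith
  set F := (RP_finite hu (2 * T)).toFinset with hF
  have hRS := RS_eq hu p (2 * T)
  rw [← hF] at hRS
  -- the unit intervals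
  set S : Finset ℕ := Finset.Ico m (⌊T⌋₊ + 1) with hS
  have hmS : m ≤ ⌊T⌋₊ + 1 := by
    have : m ≤ ⌊T⌋₊ := Nat.le_floor (by linarith)
    omega
  have hsplit : ∫ t in (0:ℝ)..T, Z t ^ p ≤
      (∫ t in (0:ℝ)..m, Z t ^ p) + ∑ n ∈ S, ∫ t in (n : ℝ)..((n + 1 : ℕ) : ℝ), Z t ^ p := by
    have h1 : ∑ n ∈ S, ∫ t in (n : ℝ)..((n + 1 : ℕ) : ℝ), Z t ^ p =
        ∫ t in (m : ℝ)..((⌊T⌋₊ + 1 : ℕ) : ℝ), Z t ^ p :=
      intervalIntegral.sum_integral_adjacent_intervals_Ico hmS
        (fun k _ => Zp_int hp _ _)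
    rw [h1, intervalIntegral.integral_add_adjacent_intervals (Zp_int hp _ _) (Zp_int hp _ _)]
    apply intervalIntegral.integral_mono_interval le_rfl (by linarith)
    · push_cast
      exact (Nat.lt_floor_add_one T).le
    · exact Filter.Eventually.of_forall fun t => Real.rpow_nonneg (Z_nonneg t) p
    · exact Zp_int hp _ _
  -- the first piece
  have hfirst : ∫ t in (0:ℝ)..m, Z t ^ p ≤ T * (A1 * Real.log T) ^ p := by
    have h1 := integral_le_of (a := 0) (b := (m : ℝ)) (K := A1) hp (Nat.cast_nonneg m)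
      (fun t ht => by
        have := hA t ht
        rw [Real.norm_of_nonneg (Z_nonneg t)] at this
        exact this.trans (le_max_left _ _))
    rw [sub_zero] at h1
    refine h1.trans ?_
    apply mul_le_mul (by linarith) _ (by positivity) (by linarith)
    apply Real.rpow_le_rpow (by linarith) _ hp.le
    nlinarith
  -- the other pieces
  classical
  set P : ℕ → Prop := fun n => ∃ v ∈ RP u (2 * T), |(n : ℝ) - v| ≤ K ∧
        ∀ t ∈ Icc (n : ℝ) (n + 1), Z t ≤ K * Z v with hP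
  have hex : ∀ n : ℕ, ∃ v : ℝ, P n → (v ∈ RP u (2 * T) ∧ |(n : ℝ) - v| ≤ K ∧
        ∀ t ∈ Icc (n : ℝ) (n + 1), Z t ≤ K * Z v) := by
    intro n
    by_cases h : P n
    · obtain ⟨v, h1, h2, h3⟩ := h
      exact ⟨v, fun _ => ⟨h1, h2, h3⟩⟩
    · exact ⟨0, fun h' => absurd h' h⟩
  choose w hw using hex
  have hpiece : ∀ n ∈ S, ∫ t in (n : ℝ)..((n + 1 : ℕ) : ℝ), Z t ^ p ≤
      K ^ p + (if P n then K ^ p * Z (w n) ^ p else 0) := by
    intro n hn
    rw [hS, Finset.mem_Ico] at hn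
    have hn1 : N ≤ n := hmN.trans (by exact_mod_cast hn.1)
    have hn2 : (n : ℝ) ≤ T := by
      have h1 : n ≤ ⌊T⌋₊ := by omega
      exact le_trans (by exact_mod_cast h1) (Nat.floor_le (by linarith))
    have e : ((n + 1 : ℕ) : ℝ) = (n : ℝ) + 1 := by push_cast; ring
    rw [e]
    have hKp : 0 ≤ K ^ p := by positivity
    by_cases h : P n
    · rw [if_pos h]
      obtain ⟨h1, h2, h3⟩ := hw n h
      have h4 := integral_le_of (a := (n : ℝ)) (b := (n : ℝ) + 1) hp (by linarith) h3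
      rw [Real.mul_rpow (by linarith) (Z_nonneg _)] at h4
      have e2 : ((n : ℝ) + 1 - n) = 1 := by ring
      rw [e2, one_mul] at h4
      linarith
    · rw [if_neg h, add_zero]
      rcases hu1 T hTN u hu n hn1 hn2 with h1 | h1
      · have h4 := integral_le_of (a := (n : ℝ)) (b := (n : ℝ) + 1) hp (by linarith) h1
        have e2 : ((n : ℝ) + 1 - n) = 1 := by ring
        rw [e2, one_mul] at h4
        exact h4
      · exact absurd h1 h
  have hcard : (S.card : ℝ) ≤ T := by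
    rw [hS, Nat.card_Ico]
    have h1 : (⌊T⌋₊ : ℝ) ≤ T := Nat.floor_le (by linarith)
    have h2 : 1 ≤ m := by
      rw [hm]
      exact Nat.one_le_ceil_iff.2 (by linarith)
    have h3 : ((⌊T⌋₊ + 1 - m : ℕ) : ℝ) ≤ (⌊T⌋₊ : ℝ) := by
      exact_mod_cast (by omega : ⌊T⌋₊ + 1 - m ≤ ⌊T⌋₊)
    linarith
  have hfib : ∑ n ∈ S.filter P, Z (w n) ^ p ≤ (2 * K + 1) * RS u p (2 * T) := by
    have hmaps : ∀ n ∈ S.filter P, w n ∈ F := by
      intro n hn
      rw [Finset.mem_filter] at hn
      rw [hF, Set.Finite.mem_toFinset]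
      exact (hw n hn.2).1
    rw [← Finset.sum_fiberwise_of_maps_to hmaps, hRS, Finset.mul_sum]
    apply Finset.sum_le_sum
    intro v _
    have h1 : ∑ n ∈ (S.filter P).filter (fun n => w n = v), Z (w n) ^ p =
        (((S.filter P).filter (fun n => w n = v)).card : ℝ) * Z v ^ p := by
      rw [← nsmul_eq_mul, ← Finset.sum_const]
      apply Finset.sum_congr rfl
      intro n hn
      rw [(Finset.mem_filter.1 hn).2]
    rw [h1]
    apply mul_le_mul_of_nonneg_right _ (Real.rpow_nonneg (Z_nonneg v) p)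
    apply card_near _ v K (by linarith)
    intro n hn
    rw [Finset.mem_filter, Finset.mem_filter] at hn
    have := (hw n hn.1.2).2.1
    rwa [hn.2] at this
  have hRS0 : 0 ≤ RS u p (2 * T) := by
    rw [hRS]
    exact Finset.sum_nonneg fun v _ => Real.rpow_nonneg (Z_nonneg v) p
  have hsum : ∑ n ∈ S, ∫ t in (n : ℝ)..((n + 1 : ℕ) : ℝ), Z t ^ p ≤
      T * K ^ p + K ^ p * ((2 * K + 1) * RS u p (2 * T)) := by
    refine (Finset.sum_le_sum hpiece).trans ?_
    rw [Finset.sum_add_distrib, Finset.sum_const, nsmul_eq_mul, ← Finset.sum_filter,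
      ← Finset.mul_sum]
    apply add_le_add
    · exact mul_le_mul_of_nonneg_right hcard (by positivity)
    · exact mul_le_mul_of_nonneg_left hfib (by positivity)
  -- the final estimate
  set D : ℝ := (C + A1 + 2 * C + 3) * Real.log T with hD
  have hKD : K ≤ D := by rw [hK, hD]; nlinarith
  have hAD : A1 * Real.log T ≤ D := by rw [hD]; nlinarith
  have hD0 : 0 < D := by linarith
  have h1 : K ^ p ≤ D ^ p := Real.rpow_le_rpow (by linarith) hKD hp.le
  have h2 : (A1 * Real.log T) ^ p ≤ D ^ p := Real.rpow_le_rpow (by positivity) hAD hp.le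
  have h3 : 2 * K + 1 ≤ D := by rw [hK, hD]; nlinarith
  have h4 : 2 ≤ D := by rw [hD]; nlinarith
  have hDp : 0 < D ^ p := Real.rpow_pos_of_pos hD0 p
  rw [Real.rpow_add hD0, Real.rpow_one]
  have hT0 : 0 < T := by linarith
  calc ∫ t in (0:ℝ)..T, Z t ^ p
      ≤ T * (A1 * Real.log T) ^ p + (T * K ^ p + K ^ p * ((2 * K + 1) * RS u p (2 * T))) :=
        hsplit.trans (add_le_add hfirst hsum)
    _ ≤ T * D ^ p + (T * D ^ p + D ^ p * (D * RS u p (2 * T))) := by
        apply add_le_add (mul_le_mul_of_nonneg_left h2 hT0.le)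
        apply add_le_add (mul_le_mul_of_nonneg_left h1 hT0.le)
        apply mul_le_mul h1 (mul_le_mul_of_nonneg_right h3 hRS0) (by positivity) hDp.le
    _ = D ^ p * (2 * T + D * RS u p (2 * T)) := by ring
    _ ≤ D ^ p * (D * T + D * RS u p (2 * T)) := by
        apply mul_le_mul_of_nonneg_left _ hDp.le
        have : 2 * T ≤ D * T := mul_le_mul_of_nonneg_right h4 hT0.le
        linarith
    _ = D ^ p * D * (T + RS u p (2 * T)) := by ring

end Pool.Agent.W188.Mom
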