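import Pool.Agent.W188.Mom.B2

set_option autoImplicit false

open Complex Filter Topology Set Metric MeasureTheory

namespace Pool.Agent.W188.Mom

open Pool.Agent.W188.Ray H345 H345.Chi

lemma Z_le_sq {t : ℝ} (ht : 100 ≤ t) : Z t ≤ t ^ 2 := by
  have h := Pool.Agent.H388LH.zeta_growth' (s := 1 / 2 + (t : ℂ) * I) (by simp; norm_num)
    (by simp; norm_num)
  have e : (1 / 2 + (t : ℂ) * I).im = t := by simp
  rw [e, abs_of_nonneg (by linarith)] at h
  unfold Z
  nlinarith

/-- from one window to the point, one scale -/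
lemma window {p κ δ : ℝ} (hp : 0 < p) {v : ℝ} (hv : 100 ≤ v)
    (h : ENNReal.ofReal (δ * 1) < volume (Pool.Agent.H983R4.LH.Ex κ v 1)) :
    δ * v ^ (κ * p) ≤ ∫ t in (v - 1)..(v + 1), Z t ^ p := by
  have hv0 : 0 < v := by linarith
  have hle : v - 1 ≤ v + 1 := by linarith
  rw [intervalIntegral.integral_of_le hle]
  have hint : Integrable (fun t => Z t ^ p) (volume.restrict (Ioc (v - 1) (v + 1))) :=
    (intervalIntegrable_iff_integrableOn_Ioc_of_le hle).1 (Zp_int hp _ _)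
  have h1 := mul_meas_ge_le_integral_of_nonneg (μ := volume.restrict (Ioc (v - 1) (v + 1)))
    (f := fun t => Z t ^ p) (Eventually.of_forall fun t => Real.rpow_nonneg (Z_nonneg t) p)
    hint (v ^ (κ * p))
  refine le_trans ?_ h1
  rw [mul_comm δ]
  apply mul_le_mul_of_nonneg_left _ (by positivity)
  -- the measure
  have hmeas : MeasurableSet {x : ℝ | v ^ (κ * p) ≤ Z x ^ p} :=
    measurableSet_le measurable_const (Zp_cont hp).measurable
  rw [measureReal_def, Measure.restrict_apply hmeas]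
  have hfin : volume ({x : ℝ | v ^ (κ * p) ≤ Z x ^ p} ∩ Ioc (v - 1) (v + 1)) ≠ ⊤ := by
    refine ne_top_of_le_ne_top ?_ (measure_mono inter_subset_right)
    rw [Real.volume_Ioc]
    exact ENNReal.ofReal_ne_top
  rcases le_or_gt δ 0 with hδ | hδ
  · exact hδ.trans ENNReal.toReal_nonneg
  have hsub : Pool.Agent.H983R4.LH.Ex κ v 1 ⊆
      ({x : ℝ | v ^ (κ * p) ≤ Z x ^ p} ∩ Ioc (v - 1) (v + 1)) ∪ {v - 1} := by
    intro x hx
    obtain ⟨hx1, hx2⟩ := hx
    have hx3 := abs_le.1 hx1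
    by_cases hx4 : x = v - 1
    · right; exact hx4
    · left
      refine ⟨?_, ⟨lt_of_le_of_ne (by linarith [hx3.1]) (Ne.symm hx4), by linarith [hx3.2]⟩⟩
      simp only [mem_ofPred_eq]
      rw [Real.rpow_mul hv0.le]
      exact Real.rpow_le_rpow (by positivity) hx2.le hp.le
  have h2 : volume (Pool.Agent.H983R4.LH.Ex κ v 1) ≤
      volume ({x : ℝ | v ^ (κ * p) ≤ Z x ^ p} ∩ Ioc (v - 1) (v + 1)) := by
    refine (measure_mono hsub).trans ((measure_union_le _ _).trans ?_)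
    rw [Real.volume_singleton, add_zero]
  rw [mul_one] at h
  have h3 := (ENNReal.ofReal_le_iff_le_toReal hfin).1 (h.le.trans h2)
  exact h3

/-- the value at a point is bounded by a mean, up to `v ^ ε` -/
lemma sup_mean {p ε : ℝ} (hp : 0 < p) (hε : 0 < ε) : ∃ A V : ℝ, 1 ≤ A ∧ 100 ≤ V ∧
    ∀ v : ℝ, V ≤ v → Z v ^ p ≤ A * v ^ ε * (1 + ∫ t in (v - 1)..(v + 1), Z t ^ p) := by
  set e : ℝ := ε / (2 * p) with he
  have he0 : 0 < e := by positivity
  have hex : ∀ j : ℕ, ∃ δ T₀ : ℝ, 0 < δ ∧ 8 ≤ T₀ ∧ ∀ T : ℝ, T₀ ≤ T → ∀ h : ℝ, 0 < h → h ≤ 1 →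
      T ^ (((j : ℝ) + 2) * e) ≤ ‖riemannZeta (1 / 2 + T * Complex.I)‖ →
      ENNReal.ofReal (δ * h) < volume (Pool.Agent.H983R4.LH.Ex (((j : ℝ) + 1) * e) T h) := by
    intro j
    obtain ⟨δ, hδ, T₀, h8, h⟩ := Pool.Agent.H983R4.LH.main_local (κ := ((j : ℝ) + 1) * e)
      (μ := ((j : ℝ) + 2) * e) (by positivity) (by nlinarith)
    exact ⟨δ, T₀, hδ, h8, h⟩
  choose δ T₀ hδ h8 hper using hex
  obtain ⟨J, hJ⟩ := exists_nat_gt (2 / e)
  set A : ℝ := 1 + ∑ j ∈ Finset.range (J + 1), 1 / δ j with hA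
  set V : ℝ := 100 + ∑ j ∈ Finset.range (J + 1), T₀ j with hV
  have hδsum : ∀ j ∈ Finset.range (J + 1), 0 ≤ 1 / δ j := fun j _ => by
    have := hδ j; positivity
  have hTsum : ∀ j ∈ Finset.range (J + 1), 0 ≤ T₀ j := fun j _ => by linarith [h8 j]
  have hA1 : 1 ≤ A := by
    have := Finset.sum_nonneg hδsum
    linarith
  have hV1 : 100 ≤ V := by
    have := Finset.sum_nonneg hTsum
    linarith
  refine ⟨A, V, hA1, hV1, fun v hv => ?_⟩
  have hv100 : 100 ≤ v := hV1.trans hv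
  have hv0 : 0 < v := by linarith
  have hI : 0 ≤ ∫ t in (v - 1)..(v + 1), Z t ^ p :=
    intervalIntegral.integral_nonneg (by linarith) fun t _ => Real.rpow_nonneg (Z_nonneg t) p
  have hvε : 1 ≤ v ^ ε := Real.one_le_rpow (by linarith) hε.le
  have h2ep : 2 * e * p = ε := by rw [he]; field_simp
  rcases le_or_gt (Z v) (v ^ (2 * e)) with h | h
  · calc Z v ^ p ≤ (v ^ (2 * e)) ^ p := Real.rpow_le_rpow (Z_nonneg v) h hp.le
      _ = v ^ ε := by rw [← Real.rpow_mul hv0.le, h2ep]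
      _ ≤ A * v ^ ε * (1 + ∫ t in (v - 1)..(v + 1), Z t ^ p) := by
          have h1 : 1 * v ^ ε * 1 ≤ A * v ^ ε * (1 + ∫ t in (v - 1)..(v + 1), Z t ^ p) := by
            apply mul_le_mul (mul_le_mul_of_nonneg_right hA1 (by positivity)) (by linarith)
              (by norm_num) (by positivity)
          linarith
  · -- choose the scale
    set μ : ℝ := Real.log (Z v) / Real.log v with hμ
    have hlog : 0 < Real.log v := Real.log_pos (by linarith)
    have hZ0 : 0 < Z v := lt_trans (by positivity) h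
    have hZμ : Z v = v ^ μ := by
      rw [Real.rpow_def_of_pos hv0, hμ, mul_div_cancel₀ _ hlog.ne', Real.exp_log hZ0]
    have hμ1 : 2 * e < μ := by
      rw [hZμ] at h
      exact (Real.rpow_lt_rpow_left_iff (by linarith)).1 h
    have hμ2 : μ ≤ 2 := by
      have h1 := Z_le_sq hv100
      rw [hZμ, ← Real.rpow_natCast] at h1
      have := (Real.rpow_le_rpow_left_iff (by linarith : 1 < v)).1 h1
      exact_mod_cast this
    set q : ℝ := μ / e - 2 with hq
    have hq0 : 0 ≤ q := by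
      rw [hq, sub_nonneg, le_div_iff₀ he0]
      exact hμ1.le
    set j : ℕ := ⌊q⌋₊ with hj
    have hj1 : (j : ℝ) ≤ q := Nat.floor_le hq0
    have hj2 : q < j + 1 := Nat.lt_floor_add_one q
    have hqe : (q + 2) * e = μ := by rw [hq]; field_simp; ring
    have hjJ : j ∈ Finset.range (J + 1) := by
      rw [Finset.mem_range]
      have h1 : q < J := by
        have h2 : μ / e ≤ 2 / e := div_le_div_of_nonneg_right hμ2 he0.le
        linarith
      have h3 : (j : ℝ) < J := lt_of_le_of_lt hj1 h1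
      have h4 : j < J := by exact_mod_cast h3
      omega
    have hTj : T₀ j ≤ v := by
      have := Finset.single_le_sum hTsum hjJ
      linarith
    have h1 : v ^ (((j : ℝ) + 2) * e) ≤ ‖riemannZeta (1 / 2 + v * Complex.I)‖ := by
      show _ ≤ Z v
      rw [hZμ]
      apply Real.rpow_le_rpow_of_exponent_le (by linarith)
      rw [← hqe]
      exact mul_le_mul_of_nonneg_right (by linarith) he0.le
    have h2 := window hp hv100 (hper j v hTj 1 one_pos le_rfl h1)
    have h3 : v ^ ((((j : ℝ) + 1) * e) * p) ≤ 1 / δ j * ∫ t in (v - 1)..(v + 1), Z t ^ p := by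
      rw [one_div, ← div_eq_inv_mul, le_div_iff₀ (hδ j), mul_comm]
      exact h2
    have h4 : 1 / δ j ≤ A := by
      have := Finset.single_le_sum hδsum hjJ
      linarith
    calc Z v ^ p = v ^ (μ * p) := by rw [hZμ, ← Real.rpow_mul hv0.le]
      _ ≤ v ^ (ε + (((j : ℝ) + 1) * e) * p) := by
          apply Real.rpow_le_rpow_of_exponent_le (by linarith)
          have h5 : μ ≤ ((j : ℝ) + 3) * e := by
            rw [← hqe]
            exact mul_le_mul_of_nonneg_right (by linarith) he0.le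
          have h6 : μ * p ≤ ((j : ℝ) + 3) * e * p := mul_le_mul_of_nonneg_right h5 hp.le
          have h7 : ((j : ℝ) + 3) * e * p = 2 * e * p + ((j : ℝ) + 1) * e * p := by ring
          rw [h7, h2ep] at h6
          exact h6
      _ = v ^ ε * v ^ ((((j : ℝ) + 1) * e) * p) := Real.rpow_add hv0 _ _
      _ ≤ v ^ ε * (1 / δ j * ∫ t in (v - 1)..(v + 1), Z t ^ p) :=
          mul_le_mul_of_nonneg_left h3 (by positivity)
      _ ≤ v ^ ε * (A * ∫ t in (v - 1)..(v + 1), Z t ^ p) :=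
          mul_le_mul_of_nonneg_left (mul_le_mul_of_nonneg_right h4 hI) (by positivity)
      _ ≤ A * v ^ ε * (1 + ∫ t in (v - 1)..(v + 1), Z t ^ p) := by
          have : 0 ≤ A * v ^ ε := by positivity
          nlinarith

/-- the same for all `v ≥ 100` -/
lemma sup_mean' {p ε : ℝ} (hp : 0 < p) (hε : 0 < ε) : ∃ A : ℝ, 1 ≤ A ∧
    ∀ v : ℝ, 100 ≤ v → Z v ^ p ≤ A * v ^ ε * (1 + ∫ t in (v - 1)..(v + 1), Z t ^ p) := by
  obtain ⟨A, V, hA, hV, h⟩ := sup_mean hp hε
  obtain ⟨B, hB⟩ := (isCompact_Icc (a := (0 : ℝ)) (b := V)).exists_bound_of_continuousOn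
    (Zp_cont hp).continuousOn
  refine ⟨A + |B|, by linarith [abs_nonneg B], fun v hv => ?_⟩
  have hI : 0 ≤ ∫ t in (v - 1)..(v + 1), Z t ^ p :=
    intervalIntegral.integral_nonneg (by linarith) fun t _ => Real.rpow_nonneg (Z_nonneg t) p
  have hvε : 1 ≤ v ^ ε := Real.one_le_rpow (by linarith) hε.le
  rcases le_or_gt V v with h1 | h1
  · refine (h v h1).trans ?_
    apply mul_le_mul_of_nonneg_right _ (by linarith)
    exact mul_le_mul_of_nonneg_right (by linarith [abs_nonneg B]) (by linarith)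
  · have h2 := (le_abs_self _).trans (hB v ⟨by linarith, h1.le⟩)
    calc Z v ^ p ≤ |B| := h2.trans (le_abs_self _)
      _ = |B| * 1 * 1 := by ring
      _ ≤ (A + |B|) * v ^ ε * (1 + ∫ t in (v - 1)..(v + 1), Z t ^ p) := by
          apply mul_le_mul (mul_le_mul (by linarith) hvε (by norm_num) (by positivity))
            (by linarith) (by norm_num) (by positivity)

lemma mono_int {p a b c d : ℝ} (hp : 0 < p) (h1 : c ≤ a) (h2 : a ≤ b) (h3 : b ≤ d) :
    ∫ t in a..b, Z t ^ p ≤ ∫ t in c..d, Z t ^ p :=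
  intervalIntegral.integral_mono_interval h1 h2 h3
    (Filter.Eventually.of_forall fun t => Real.rpow_nonneg (Z_nonneg t) p) (Zp_int hp _ _)

lemma sum_windows {p : ℝ} (hp : 0 < p) (m : ℕ) :
    ∑ n ∈ Finset.range m, ∫ t in (n : ℝ)..(n + 3), Z t ^ p ≤
      3 * ∫ t in (0 : ℝ)..(m + 2), Z t ^ p := by
  have key : ∀ j : ℕ, j ≤ 2 → ∑ n ∈ Finset.range m, ∫ t in ((n + j : ℕ) : ℝ)..((n + j + 1 : ℕ) : ℝ),
      Z t ^ p ≤ ∫ t in (0 : ℝ)..(m + 2), Z t ^ p := by
    intro j hj
    have h1 := intervalIntegral.sum_integral_adjacent_intervals (μ := volume)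
      (f := fun t => Z t ^ p) (a := fun n : ℕ => ((n + j : ℕ) : ℝ)) (n := m)
      (fun k _ => Zp_int hp _ _)
    have e : ∀ n : ℕ, n + 1 + j = n + j + 1 := fun n => by ring
    simp only [e] at h1
    rw [h1]
    apply mono_int hp
    · simp
    · push_cast; linarith [(Nat.cast_nonneg m : (0:ℝ) ≤ m)]
    · push_cast
      have : (j : ℝ) ≤ 2 := by exact_mod_cast hj
      linarith
  have h0 := key 0 (by norm_num)
  have h1 := key 1 (by norm_num)
  have h2 := key 2 (by norm_num)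
  have hsplit : ∀ n : ℕ, ∫ t in (n : ℝ)..(n + 3), Z t ^ p =
      (∫ t in ((n + 0 : ℕ) : ℝ)..((n + 0 + 1 : ℕ) : ℝ), Z t ^ p) +
      (∫ t in ((n + 1 : ℕ) : ℝ)..((n + 1 + 1 : ℕ) : ℝ), Z t ^ p) +
      (∫ t in ((n + 2 : ℕ) : ℝ)..((n + 2 + 1 : ℕ) : ℝ), Z t ^ p) := by
    intro n
    rw [intervalIntegral.integral_add_adjacent_intervals (Zp_int hp _ _) (Zp_int hp _ _),
      intervalIntegral.integral_add_adjacent_intervals (Zp_int hp _ _) (Zp_int hp _ _)]
    push_cast
    congr 1 <;> ring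
  simp only [hsplit]
  rw [Finset.sum_add_distrib, Finset.sum_add_distrib]
  linarith

/-- the sum over the ray is bounded by the moment -/
theorem RS_le {p ε : ℝ} (hp : 0 < p) (hε : 0 < ε) : ∃ B : ℝ, 0 < B ∧ ∀ T : ℝ, 1 ≤ T →
    ∀ u : ℂ, ‖u‖ = 1 → RS u p T ≤ B * T ^ ε * (T + ∫ t in (0 : ℝ)..(T + 2), Z t ^ p) := by
  obtain ⟨A, hA, hsm⟩ := sup_mean' hp (half_pos hε)
  have hlogε : ∃ D : ℝ, 0 < D ∧ ∀ T : ℝ, 1 ≤ T → 8 * Real.log T + 1 ≤ D * T ^ (ε / 2) := by
    refine ⟨16 / ε + 1, by positivity, fun T hT => ?_⟩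
    have h1 := Real.log_le_rpow_div (by linarith : 0 ≤ T) (half_pos hε)
    have h2 : 1 ≤ T ^ (ε / 2) := Real.one_le_rpow hT (half_pos hε).le
    have h3 : 8 * (T ^ (ε / 2) / (ε / 2)) = 16 / ε * T ^ (ε / 2) := by field_simp; ring
    calc 8 * Real.log T + 1 ≤ 8 * (T ^ (ε / 2) / (ε / 2)) + T ^ (ε / 2) := by linarith
      _ = (16 / ε + 1) * T ^ (ε / 2) := by rw [h3]; ring
  obtain ⟨D, hD, hDl⟩ := hlogε
  refine ⟨D * A * 3, by positivity, fun T hT u hu => ?_⟩
  have hT0 : 0 < T := by linarith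
  have hI0 : 0 ≤ ∫ t in (0 : ℝ)..(T + 2), Z t ^ p :=
    intervalIntegral.integral_nonneg (by linarith) fun t _ => Real.rpow_nonneg (Z_nonneg t) p
  rcases lt_or_ge T 100 with h | h
  · have : RP u T = ∅ := by
      ext v
      simp only [mem_empty_iff_false, iff_false]
      intro hv
      linarith [hv.1, hv.2.1]
    unfold RS
    rw [this]
    simp only [mem_empty_iff_false, finsum_false, finsum_zero]
    positivity
  rw [RS_eq hu]
  set F := (RP_finite hu T).toFinset with hF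
  set m : ℕ := ⌊T⌋₊ with hm
  have hmT : (m : ℝ) ≤ T := Nat.floor_le hT0.le
  have hmem : ∀ v ∈ F, 100 ≤ v ∧ v ≤ T := by
    intro v hv
    rw [hF, Set.Finite.mem_toFinset] at hv
    exact ⟨hv.1, hv.2.1⟩
  have hmaps : ∀ v ∈ F, ⌊v - 1⌋₊ ∈ Finset.range m := by
    intro v hv
    obtain ⟨h1, h2⟩ := hmem v hv
    rw [Finset.mem_range, hm]
    have h3 : ⌊v - 1⌋₊ + 1 ≤ ⌊T⌋₊ := by
      apply Nat.le_floor
      push_cast
      have := Nat.floor_le (by linarith : 0 ≤ v - 1)
      linarith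
    omega
  have hlog0 : 0 ≤ Real.log T := Real.log_nonneg hT
  rw [← Finset.sum_fiberwise_of_maps_to hmaps]
  have hfib : ∀ n ∈ Finset.range m, ∑ v ∈ F.filter (fun v => ⌊v - 1⌋₊ = n), Z v ^ p ≤
      (8 * Real.log T + 1) * (A * T ^ (ε / 2) * (1 + ∫ t in (n : ℝ)..(n + 3), Z t ^ p)) := by
    intro n _
    have hG0 : 0 ≤ ∫ t in (n : ℝ)..(n + 3), Z t ^ p :=
      intervalIntegral.integral_nonneg (by linarith) fun t _ => Real.rpow_nonneg (Z_nonneg t) p
    have hcard : ((F.filter (fun v => ⌊v - 1⌋₊ = n)).card : ℝ) ≤ 8 * Real.log T + 1 := by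
      refine le_trans ?_ (RP_count hu (T := T) (a := n + 1) h)
      have h1 : F.filter (fun v => ⌊v - 1⌋₊ = n) ⊆
          ((RP_finite hu T).inter_of_left (Icc ((n : ℝ) + 1) (n + 1 + 1))).toFinset := by
        intro v hv
        rw [Finset.mem_filter] at hv
        obtain ⟨h2, h3⟩ := hmem v hv.1
        rw [Set.Finite.mem_toFinset]
        refine ⟨?_, ?_⟩
        · have := hv.1
          rwa [hF, Set.Finite.mem_toFinset] at this
        · have h4 := Nat.floor_le (by linarith : 0 ≤ v - 1)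
          have h5 := Nat.lt_floor_add_one (v - 1)
          rw [hv.2] at h4 h5
          exact ⟨by linarith, by linarith⟩
      have h2 := Finset.card_le_card h1
      rw [← Set.ncard_eq_toFinset_card _
        ((RP_finite hu T).inter_of_left (Icc ((n : ℝ) + 1) (n + 1 + 1)))] at h2
      exact_mod_cast h2
    have hterm : ∀ v ∈ F.filter (fun v => ⌊v - 1⌋₊ = n), Z v ^ p ≤
        A * T ^ (ε / 2) * (1 + ∫ t in (n : ℝ)..(n + 3), Z t ^ p) := by
      intro v hv
      rw [Finset.mem_filter] at hv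
      obtain ⟨h2, h3⟩ := hmem v hv.1
      have h4 := Nat.floor_le (by linarith : 0 ≤ v - 1)
      have h5 := Nat.lt_floor_add_one (v - 1)
      rw [hv.2] at h4 h5
      have hG := mono_int (a := v - 1) (b := v + 1) (c := n) (d := n + 3) hp (by linarith)
        (by linarith) (by linarith)
      have hW0 : 0 ≤ ∫ t in (v - 1)..(v + 1), Z t ^ p :=
        intervalIntegral.integral_nonneg (by linarith) fun t _ => Real.rpow_nonneg (Z_nonneg t) p
      refine (hsm v h2).trans ?_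
      apply mul_le_mul _ (by linarith) (by linarith) (by positivity)
      apply mul_le_mul_of_nonneg_left _ (by linarith)
      exact Real.rpow_le_rpow (by linarith) h3 (by positivity)
    refine (Finset.sum_le_card_nsmul _ _ _ hterm).trans ?_
    rw [nsmul_eq_mul]
    exact mul_le_mul_of_nonneg_right hcard (by positivity)
  refine (Finset.sum_le_sum hfib).trans ?_
  rw [← Finset.mul_sum, ← Finset.mul_sum, Finset.sum_add_distrib]
  have h1 : ∑ _n ∈ Finset.range m, (1 : ℝ) ≤ T := by simpa using hmT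
  have h2 := sum_windows hp m
  have h3 : ∫ t in (0 : ℝ)..(m + 2), Z t ^ p ≤ ∫ t in (0 : ℝ)..(T + 2), Z t ^ p :=
    mono_int hp le_rfl (by positivity) (by linarith)
  have h4 := hDl T hT
  have h5 : T ^ (ε / 2) * T ^ (ε / 2) = T ^ ε := by
    rw [← Real.rpow_add hT0, add_halves]
  calc (8 * Real.log T + 1) * (A * T ^ (ε / 2) * (∑ _n ∈ Finset.range m, (1 : ℝ) +
        ∑ n ∈ Finset.range m, ∫ t in (n : ℝ)..(n + 3), Z t ^ p))
      ≤ (D * T ^ (ε / 2)) * (A * T ^ (ε / 2) * (T + 3 * ∫ t in (0 : ℝ)..(T + 2), Z t ^ p)) := by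
        apply mul_le_mul h4 _ _ (by positivity)
        · apply mul_le_mul_of_nonneg_left _ (by positivity)
          linarith
        · apply mul_nonneg (by positivity)
          apply add_nonneg
          · simp
          · exact Finset.sum_nonneg fun n _ =>
              intervalIntegral.integral_nonneg (by linarith) fun t _ => Real.rpow_nonneg (Z_nonneg t) p
    _ = D * A * (T ^ (ε / 2) * T ^ (ε / 2)) * (T + 3 * ∫ t in (0 : ℝ)..(T + 2), Z t ^ p) := by ring
    _ = D * A * T ^ ε * (T + 3 * ∫ t in (0 : ℝ)..(T + 2), Z t ^ p) := by rw [h5]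
    _ ≤ D * A * T ^ ε * (3 * (T + ∫ t in (0 : ℝ)..(T + 2), Z t ^ p)) := by
        apply mul_le_mul_of_nonneg_left _ (by positivity)
        linarith
    _ = D * A * 3 * T ^ ε * (T + ∫ t in (0 : ℝ)..(T + 2), Z t ^ p) := by ring

end Pool.Agent.W188.Mom
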